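import Pool.Agent.X23.L3.Stm

/-! LT_NP: the part `S_SEG → S_NP` of the project on `L_3` (MP_688354_co, helper23). -/

set_option autoImplicit false

namespace Pool.Agent.X32.LT

open Pool.Agent.X23.L3 Filter Topology

theorem exists_bound {n : ℕ} (X : Sys n) (v : Fin 3 → ℝ) :
    ∃ T : ℝ, ∀ x, (∀ k, X.a k ⬝ᵥ x ≤ X.b k) → |v ⬝ᵥ x| < T := by
  obtain ⟨C, hC⟩ := X.bd
  refine ⟨(∑ k, |v k| * C) + 1, fun x hx => ?_⟩
  have h1 : |v ⬝ᵥ x| ≤ ∑ k, |v k| * C := by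
    rw [dotProduct]
    refine (Finset.abs_sum_le_sum_abs _ _).trans (Finset.sum_le_sum fun k _ => ?_)
    rw [abs_mul]
    exact mul_le_mul_of_nonneg_left (hC x hx k) (abs_nonneg _)
  linarith

theorem dot_self_pos {v : Fin 3 → ℝ} (hv : v ≠ 0) : 0 < v ⬝ᵥ v := by
  have h0 : 0 ≤ v ⬝ᵥ v := by
    rw [dotProduct]
    exact Finset.sum_nonneg fun k _ => mul_self_nonneg _
  refine lt_of_le_of_ne h0 fun h => hv ?_
  funext k
  rw [dotProduct] at h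
  have h1 := (Finset.sum_eq_zero_iff_of_nonneg (s := Finset.univ) (f := fun k => v k * v k)
    (fun k _ => mul_self_nonneg _)).1 h.symm k (Finset.mem_univ k)
  simpa using h1

theorem side {n : ℕ} (X : Sys n) (S : Finset (Fin n)) (i : Fin n) (hi : i ∉ S) (v : Fin 3 → ℝ)
    (hv : v ≠ 0) (hS : ∀ s ∈ S, X.a s ⬝ᵥ v = 0) (T : ℝ) (h0 : 0 ≤ X.a i ⬝ᵥ v) :
    ∃ x, (∀ s ∈ S, X.a s ⬝ᵥ x ≤ X.b s) ∧ X.b i < X.a i ⬝ᵥ x ∧ T ≤ v ⬝ᵥ x := by
  have hai : X.a i ≠ 0 := by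
    intro h
    have h1 := X.ho i
    have h2 := X.hy i
    rw [h] at h1 h2
    simp at h1 h2
    linarith
  have hpos := dot_self_pos hai
  obtain ⟨ε, hε0, hε⟩ : ∃ ε : ℝ, 0 < ε ∧ ∀ s ∈ S, ε * (X.a s ⬝ᵥ X.a i) < X.b s - X.a s ⬝ᵥ X.y i := by
    have h1 : ∀ᶠ ε : ℝ in 𝓝[>] 0, ∀ s ∈ S, ε * (X.a s ⬝ᵥ X.a i) < X.b s - X.a s ⬝ᵥ X.y i := by
      rw [Filter.eventually_all_finset]
      intro s hs
      have hsi : s ≠ i := fun h => hi (h ▸ hs)
      have h2 : 0 < X.b s - X.a s ⬝ᵥ X.y i := sub_pos.2 (X.hy2 i s hsi)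
      have h3 : Tendsto (fun ε : ℝ => ε * (X.a s ⬝ᵥ X.a i)) (𝓝[>] 0) (𝓝 0) := by
        have : Tendsto (fun ε : ℝ => ε * (X.a s ⬝ᵥ X.a i)) (𝓝 0) (𝓝 (0 * (X.a s ⬝ᵥ X.a i))) :=
          tendsto_id.mul_const _
        rw [zero_mul] at this
        exact this.mono_left nhdsWithin_le_nhds
      exact h3.eventually (gt_mem_nhds h2)
    obtain ⟨ε, h2, h3⟩ := (h1.and self_mem_nhdsWithin).exists
    exact ⟨ε, h3, h2⟩
  have hvv := dot_self_pos hv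
  set w : Fin 3 → ℝ := X.y i + ε • X.a i with hw
  set t : ℝ := (|T| + |v ⬝ᵥ w|) / (v ⬝ᵥ v) with ht
  have ht0 : 0 ≤ t := by positivity
  have htv : t * (v ⬝ᵥ v) = |T| + |v ⬝ᵥ w| := by
    rw [ht]
    field_simp
  refine ⟨w + t • v, fun s hs => ?_, ?_, ?_⟩
  · rw [dotProduct_add, dotProduct_smul, hS s hs, hw, dotProduct_add, dotProduct_smul]
    have := hε s hs
    simp only [smul_eq_mul, mul_zero, add_zero]
    linarith
  · rw [dotProduct_add, dotProduct_smul, hw, dotProduct_add, dotProduct_smul, X.hy i]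
    simp only [smul_eq_mul]
    have h1 : 0 < ε * (X.a i ⬝ᵥ X.a i) := mul_pos hε0 hpos
    have h2 : 0 ≤ t * (X.a i ⬝ᵥ v) := mul_nonneg ht0 h0
    linarith
  · rw [dotProduct_add, dotProduct_smul, smul_eq_mul, htv]
    have h1 := le_abs_self T
    have h2 := neg_abs_le (v ⬝ᵥ w)
    linarith

theorem same (hSEG : S_SEG) {n : ℕ} (X : Sys n) (S : Finset (Fin n)) {κ : Type}
    (R : κ → Set (Fin n)) (hF : Fam X S R) (v : Fin 3 → ℝ) (T : ℝ)
    (hT : ∀ x, (∀ k, X.a k ⬝ᵥ x ≤ X.b k) → |v ⬝ᵥ x| < T) (r r' : κ) (i j : Fin n) (hi : i ∈ R r)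
    (hj : j ∈ R r') (x x' : Fin 3 → ℝ) (hx : ∀ s ∈ S, X.a s ⬝ᵥ x ≤ X.b s)
    (hx' : ∀ s ∈ S, X.a s ⬝ᵥ x' ≤ X.b s) (hix : X.b i < X.a i ⬝ᵥ x) (hjx : X.b j < X.a j ⬝ᵥ x')
    (hTx : T ≤ v ⬝ᵥ x) (hTx' : T ≤ v ⬝ᵥ x') : r = r' := by
  refine hF.disj r r' j ?_ hj
  refine hSEG n X S (R r) (fun k hk l hl ht => hF.cl r k l hk hl ht) x x' hx hx'
    (fun t ht0 ht1 => ?_) ⟨i, hi, hix⟩ j hjx
  by_contra hcon
  push Not at hcon
  have h1 := hT _ hcon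
  rw [dotProduct_add, dotProduct_smul, dotProduct_sub, smul_eq_mul] at h1
  have h2 := (le_abs_self _).trans_lt h1
  nlinarith [mul_le_mul_of_nonneg_left hTx' ht0, mul_le_mul_of_nonneg_left hTx (sub_nonneg.2 ht1)]

theorem exists_orth (a : Fin 3 → ℝ) : ∃ v : Fin 3 → ℝ, v ≠ 0 ∧ a ⬝ᵥ v = 0 := by
  by_cases h : a 0 = 0 ∧ a 1 = 0
  · refine ⟨![1, 0, 0], ?_, ?_⟩
    · intro h1
      have := congrFun h1 0
      simp at this
    · simp [dotProduct, Fin.sum_univ_three, h.1]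
  · refine ⟨![a 1, -a 0, 0], ?_, ?_⟩
    · intro h1
      have h2 := congrFun h1 0
      have h3 := congrFun h1 1
      simp at h2 h3
      exact h ⟨h3, h2⟩
    · simp [dotProduct, Fin.sum_univ_three]
      ring

theorem t_NP (hSEG : S_SEG) : S_NP := by
  intro n X S κ _ R hF v hv hS
  constructor
  · classical
    obtain ⟨T, hT⟩ := exists_bound X v
    choose i hi using hF.ne
    -- the sign of `r`
    have key : ∀ r r' : κ, (0 ≤ X.a (i r) ⬝ᵥ v ↔ 0 ≤ X.a (i r') ⬝ᵥ v) → r = r' := by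
      intro r r' h
      by_cases h0 : 0 ≤ X.a (i r) ⬝ᵥ v
      · obtain ⟨x, h1, h2, h3⟩ := side X S (i r) (hF.out r _ (hi r)) v hv hS T h0
        obtain ⟨x', h1', h2', h3'⟩ := side X S (i r') (hF.out r' _ (hi r')) v hv hS T (h.1 h0)
        exact same hSEG X S R hF v T hT r r' _ _ (hi r) (hi r') x x' h1 h1' h2 h2' h3 h3'
      · have h0' : ¬ 0 ≤ X.a (i r') ⬝ᵥ v := fun h' => h0 (h.2 h')
        have hv' : -v ≠ 0 := neg_ne_zero.2 hv
        have hS' : ∀ s ∈ S, X.a s ⬝ᵥ (-v) = 0 := fun s hs => by rw [dotProduct_neg, hS s hs, neg_zero]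
        have hT' : ∀ x, (∀ k, X.a k ⬝ᵥ x ≤ X.b k) → |(-v) ⬝ᵥ x| < T := fun x hx => by
          rw [neg_dotProduct, abs_neg]
          exact hT x hx
        obtain ⟨x, h1, h2, h3⟩ := side X S (i r) (hF.out r _ (hi r)) (-v) hv' hS' T
          (by rw [dotProduct_neg]; linarith)
        obtain ⟨x', h1', h2', h3'⟩ := side X S (i r') (hF.out r' _ (hi r')) (-v) hv' hS' T
          (by rw [dotProduct_neg]; linarith)
        exact same hSEG X S R hF (-v) T hT' r r' _ _ (hi r) (hi r') x x' h1 h1' h2 h2' h3 h3'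
    have hinj : Function.Injective (fun r : κ => decide (0 ≤ X.a (i r) ⬝ᵥ v)) := by
      intro r r' h
      refine key r r' ?_
      simpa using h
    have := Fintype.card_le_of_injective _ hinj
    simpa using this
  · intro hS0
    subst hS0
    refine Fintype.card_le_one_iff.2 fun r r' => ?_
    obtain ⟨i, hi⟩ := hF.ne r
    obtain ⟨j, hj⟩ := hF.ne r'
    obtain ⟨u, hu, hiu⟩ := exists_orth (X.a i)
    obtain ⟨T, hT⟩ := exists_bound X u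
    have hE : ∀ w : Fin 3 → ℝ, ∀ s ∈ (∅ : Finset (Fin n)), X.a s ⬝ᵥ w = 0 := by
      intro w s hs
      exact absurd hs (Finset.notMem_empty s)
    by_cases h0 : 0 ≤ X.a j ⬝ᵥ u
    · obtain ⟨x, h1, h2, h3⟩ := side X ∅ i (Finset.notMem_empty i) u hu (hE u) T hiu.ge
      obtain ⟨x', h1', h2', h3'⟩ := side X ∅ j (Finset.notMem_empty j) u hu (hE u) T h0
      exact same hSEG X ∅ R hF u T hT r r' i j hi hj x x' h1 h1' h2 h2' h3 h3'
    · have hT' : ∀ x, (∀ k, X.a k ⬝ᵥ x ≤ X.b k) → |(-u) ⬝ᵥ x| < T := fun x hx => by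
        rw [neg_dotProduct, abs_neg]
        exact hT x hx
      obtain ⟨x, h1, h2, h3⟩ := side X ∅ i (Finset.notMem_empty i) (-u) (neg_ne_zero.2 hu) (hE _) T
        (by rw [dotProduct_neg, hiu, neg_zero])
      obtain ⟨x', h1', h2', h3'⟩ := side X ∅ j (Finset.notMem_empty j) (-u) (neg_ne_zero.2 hu) (hE _) T
        (by rw [dotProduct_neg]; linarith)
      exact same hSEG X ∅ R hF (-u) T hT' r r' i j hi hj x x' h1 h1' h2 h2' h3 h3'

end Pool.Agent.X32.LT
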